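import Pool.Agent.helper53.DC.SpecA

set_option autoImplicit false

namespace Pool.Agent.helper91.DC

open Pool.Agent.helper53.DC

theorem A22_imp (h3 : A3_stmt) {B W : Type} [Group W] {M : CoxeterMatrix B}
    (cs : CoxeterSystem M W) (u v : Wall cs) (b : Bool) (huv : u ≠ v)
    (h : (cw cs).On u v b) : Car cs u ⊆ (cw cs).hs v b := by
  obtain ⟨-, b', hb⟩ := h
  rintro x ⟨i, hi⟩
  have hw : wall cs x i = u := by
    apply Subtype.ext
    rw [wall_val, ← hi]
    group
  have hs1 : (cw cs).Sep u x (x * cs.simple i) := (h3 cs u x i).2 hw.symm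
  have hs2 : ¬ (cw cs).Sep v x (x * cs.simple i) := fun h => huv (hw.symm.trans ((h3 cs v x i).1 h).symm)
  have hv : x ∈ (cw cs).H v ↔ x * cs.simple i ∈ (cw cs).H v := by
    by_contra hcon
    exact hs2 hcon
  have hu : ¬ (x ∈ (cw cs).H u ↔ x * cs.simple i ∈ (cw cs).H u) := hs1
  by_cases hx : x ∈ (cw cs).hs u b'
  · exact hb hx
  · have hx2 : x * cs.simple i ∈ (cw cs).hs u b' := by
      show _ ↔ _
      have hx' : ¬ (x ∈ (cw cs).H u ↔ b' = true) := hx
      tauto
    have h4 : x * cs.simple i ∈ (cw cs).H v ↔ b = true := hb hx2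
    show x ∈ (cw cs).H v ↔ b = true
    exact hv.trans h4

theorem A22 (h3 : A3_stmt) (h6 : A6_stmt) (h13 : A13_stmt) (hW : W1_stmt) : A22_stmt := by
  intro B W _ M cs u v b huv
  constructor
  · exact A22_imp h3 cs u v b huv
  · intro h
    obtain ⟨-, w2, -, -, w5, w6, -, -, -⟩ := hW (cw cs) (h6 cs)
    have hnc : ¬ (cw cs).Cross u v := by
      intro hc
      obtain ⟨x, hx, x', hx', -, -, hsep⟩ := h13 cs u v true (w2 u v hc)
      have e1 : x ∈ (cw cs).H v ↔ b = true := h hx
      have e2 : x' ∈ (cw cs).H v ↔ b = true := h hx'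
      exact hsep (e1.trans e2.symm)
    have hdis : (cw cs).Dis u v := ((w5 u v).resolve_left huv).resolve_left hnc
    obtain ⟨b'', hb''⟩ := w6 u v hdis
    have h2 := A22_imp h3 cs u v b'' huv hb''
    obtain ⟨r, y, i, hr⟩ := u
    have hy : y ∈ Car cs ⟨r, y, i, hr⟩ := by
      refine ⟨i, ?_⟩
      show r * y = y * cs.simple i
      rw [hr]
      group
    have e1 : y ∈ (cw cs).H v ↔ b = true := h hy
    have e2 : y ∈ (cw cs).H v ↔ b'' = true := h2 hy
    have e3 : b = b'' := by
      have e4 := e1.symm.trans e2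
      cases b <;> cases b'' <;> simp_all
    rw [e3]
    exact hb''

end Pool.Agent.helper91.DC
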