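import Pool.Agent.helper53.DC.SpecA

set_option autoImplicit false

namespace Pool.Agent.helper91.DC

open Pool.Agent.helper53.DC

theorem A9_conj {W : Type} [Group W] (s t : W) (hs : s * s = 1) (ht : t * t = 1) (z : ℤ) :
    s * (s * t) ^ z = (s * t) ^ (-z) * s := by
  have hs' : s⁻¹ = s := inv_eq_of_mul_eq_one_left hs
  have ht' : t⁻¹ = t := inv_eq_of_mul_eq_one_left ht
  have h1 : s * (s * t) * s⁻¹ = (s * t)⁻¹ := by
    rw [mul_inv_rev, hs', ht', ← mul_assoc, hs, one_mul]
  have h2 : s * (s * t) ^ z * s⁻¹ = (s * t) ^ (-z) := by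
    rw [← conj_zpow, h1, inv_zpow, zpow_neg]
  rw [← h2]
  group

theorem A9_len {B W : Type} [Group W] {M : CoxeterMatrix B} (cs : CoxeterSystem M W) (i j : B)
    (hM : M i j ≠ 0) (z : ℤ) :
    cs.length ((cs.simple i * cs.simple j) ^ z * cs.simple i) ≤ 2 * M i j := by
  set q := cs.simple i * cs.simple j with hq
  have hqM : q ^ (M i j) = 1 := cs.simple_mul_simple_pow i j
  have hk : ∀ k : ℕ, cs.length (q ^ k) ≤ 2 * k := by
    intro k
    induction k with
    | zero => simp
    | succ k ih =>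
      have h1 := cs.length_mul_le (q ^ k) q
      have h2 := cs.length_mul_le (cs.simple i) (cs.simple j)
      rw [cs.length_simple, cs.length_simple, ← hq] at h2
      rw [pow_succ]
      omega
  have hpos : (0 : ℤ) < (M i j : ℤ) := by
    have : 0 < M i j := Nat.pos_of_ne_zero hM
    exact_mod_cast this
  have hz : q ^ z = q ^ (z % (M i j : ℤ)).toNat := by
    have h0 := Int.emod_nonneg z hpos.ne'
    have h1 : q ^ z = q ^ (z % (M i j : ℤ)) := by
      conv_lhs => rw [← Int.emod_add_mul_ediv z (M i j : ℤ)]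
      rw [zpow_add, zpow_mul, zpow_natCast, hqM, one_zpow, mul_one]
    rw [h1, ← zpow_natCast, Int.toNat_of_nonneg h0]
  rw [hz]
  have h1 := cs.length_mul_le (q ^ (z % (M i j : ℤ)).toNat) (cs.simple i)
  rw [cs.length_simple] at h1
  have h2 := hk (z % (M i j : ℤ)).toNat
  have h3 := Int.emod_lt_of_pos z hpos
  have h4 := Int.emod_nonneg z hpos.ne'
  omega

theorem A9 : A9_stmt := by
  intro B W _ M cs N hN r v hrv
  obtain ⟨x, i, j, a, b, hM, hr, hv⟩ := hrv
  have hsi : cs.simple i * cs.simple i = 1 := cs.simple_mul_simple_self i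
  have hsj : cs.simple j * cs.simple j = 1 := cs.simple_mul_simple_self j
  have hc := A9_conj (cs.simple i) (cs.simple j) hsi hsj
  have hle := fun z => (A9_len cs i j hM z).trans (Nat.mul_le_mul_left 2 (hN i j))
  set s := cs.simple i with hs
  set q := s * cs.simple j with hq
  rcases Nat.even_or_odd' a with ⟨n, rfl | rfl⟩
  · refine ⟨x * q ^ (n : ℤ), ⟨i, ?_⟩, ?_⟩
    · rw [hr, ← hs]
      have : q ^ (2 * n) = q ^ (n : ℤ) * q ^ (n : ℤ) := by
        rw [← zpow_add, ← zpow_natCast]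
        congr 1
        push_cast
        ring
      rw [this]
      calc x * (q ^ (n : ℤ) * q ^ (n : ℤ)) * s * x⁻¹ * (x * q ^ (n : ℤ))
          = x * q ^ (n : ℤ) * (q ^ (n : ℤ) * (s * q ^ (n : ℤ))) := by group
        _ = x * q ^ (n : ℤ) * s := by rw [hc]; group
    · unfold DD dd
      have e : (x * q ^ (n : ℤ))⁻¹ * (v.1 * (x * q ^ (n : ℤ))) = q ^ ((b : ℤ) - 2 * n) * s := by
        rw [hv]
        calc (x * q ^ (n : ℤ))⁻¹ * (x * q ^ b * s * x⁻¹ * (x * q ^ (n : ℤ)))
            = q ^ (-(n : ℤ)) * q ^ b * (s * q ^ (n : ℤ)) := by group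
          _ = q ^ ((b : ℤ) - 2 * n) * s := by
            rw [hc, ← zpow_natCast q b]
            group
      rw [e]
      exact hle _
  · refine ⟨x * q ^ (n : ℤ) * s, ⟨j, ?_⟩, ?_⟩
    · rw [hr]
      have : q ^ (2 * n + 1) = q ^ (n : ℤ) * q ^ ((n : ℤ) + 1) := by
        rw [← zpow_add, ← zpow_natCast]
        congr 1
        push_cast
        ring
      rw [this]
      calc x * (q ^ (n : ℤ) * q ^ ((n : ℤ) + 1)) * s * x⁻¹ * (x * q ^ (n : ℤ) * s)
          = x * q ^ (n : ℤ) * (q ^ ((n : ℤ) + 1) * (s * q ^ (n : ℤ)) * s) := by group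
        _ = x * q ^ (n : ℤ) * (q * (s * s)) := by rw [hc]; group
        _ = x * q ^ (n : ℤ) * s * cs.simple j := by rw [hsi, mul_one, hq]; group
    · unfold DD dd
      have e : (x * q ^ (n : ℤ) * s)⁻¹ * (v.1 * (x * q ^ (n : ℤ) * s)) =
          q ^ (2 * (n : ℤ) - b) * s := by
        have hs' : s⁻¹ = s := inv_eq_of_mul_eq_one_left hsi
        rw [hv]
        calc (x * q ^ (n : ℤ) * s)⁻¹ * (x * q ^ b * s * x⁻¹ * (x * q ^ (n : ℤ) * s))
            = s⁻¹ * q ^ ((b : ℤ) - n) * (s * q ^ (n : ℤ)) * s := by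
              rw [← zpow_natCast q b]
              group
          _ = s * q ^ ((b : ℤ) - n) * (q ^ (-(n : ℤ)) * s) * s := by rw [hc, hs']
          _ = s * q ^ ((b : ℤ) - 2 * n) * (s * s) := by group
          _ = q ^ (2 * (n : ℤ) - b) * s := by
            rw [hsi, mul_one, hc]
            congr 2
            ring
      rw [e]
      exact hle _

end Pool.Agent.helper91.DC
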