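import Pool.Agent.helper58.DC.Spec2

/-! CO (project dq:): the cocycle of the coset space `L ⧸ j.range`. -/

set_option autoImplicit false

namespace Pool.Agent.helper91.DC

open Pool.Agent.helper58.DC

theorem CO : CO_stmt := by
  intro A L _ _ _ j hj
  classical
  have hout : ∀ q : L ⧸ j.range, ((q.out : L) : L ⧸ j.range) = q := fun q =>
    QuotientGroup.out_eq' q
  have key : ∀ (l : L) (q : L ⧸ j.range), ∃ a : A, j a = ((l • q).out)⁻¹ * (l * q.out) := by
    intro l q
    have h1 : (((l • q).out : L) : L ⧸ j.range) = ((l * q.out : L) : L ⧸ j.range) := by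
      rw [hout]
      conv_lhs => rw [← hout q]
      rfl
    rw [QuotientGroup.eq] at h1
    exact h1
  choose κ hκ using key
  let c : Cocycle L (L ⧸ j.range) A :=
    { κ := κ
      mul := by
        intro l l' t
        apply hj
        rw [map_mul, hκ, hκ, hκ, mul_smul]
        group }
  refine ⟨L ⧸ j.range, Fintype.ofFinite _, inferInstance, c, ((1 : L) : L ⧸ j.range),
    inferInstance, ?_⟩
  intro a
  set q₀ : L ⧸ j.range := ((1 : L) : L ⧸ j.range) with hq
  have hfix : (q₀.out * j a * (q₀.out)⁻¹) • q₀ = q₀ := by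
    have h1 : (q₀.out * j a * (q₀.out)⁻¹) • ((q₀.out : L) : L ⧸ j.range) =
        ((q₀.out : L) : L ⧸ j.range) := by
      have h2 : (q₀.out * j a * (q₀.out)⁻¹) • ((q₀.out : L) : L ⧸ j.range) =
          (((q₀.out * j a * (q₀.out)⁻¹) * q₀.out : L) : L ⧸ j.range) := rfl
      rw [h2, inv_mul_cancel_right, eq_comm, QuotientGroup.eq]
      exact ⟨a, by group⟩
    rw [hout q₀] at h1
    exact h1
  refine ⟨q₀.out * j a * (q₀.out)⁻¹, hfix, ?_⟩
  apply hj
  show j (κ _ q₀) = j a
  rw [hκ, hfix]
  group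

end Pool.Agent.helper91.DC
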