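import Pool.Agent.helper58.DC.Spec2

/-! FN (project dq:): only finitely many `d` matter. -/

set_option autoImplicit false

namespace Pool.Agent.helper91.DC

open Pool.Agent.helper58.DC

theorem FN (hIRF : IRF_stmt) : FN_stmt := by
  intro G E A _ _ _ _ X p M χ U
  classical
  have hIrr : ∀ H : Subgroup G, (IrrOn H).Finite := by
    intro H
    have h1 := (hIRF H).1
    refine Set.Finite.of_finite_image (f := fun ψ : G → ℂ => fun h : H => ψ h) (h1.subset ?_) ?_
    · rintro _ ⟨ψ, hψ, rfl⟩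
      exact hψ.2
    · intro ψ hψ ψ' hψ' h
      funext g
      by_cases hg : g ∈ H
      · exact congrFun h ⟨g, hg⟩
      · rw [hψ.1 g hg, hψ'.1 g hg]
  have hfin : (⋃ C : Finset (Subgroup G),
      (fun ψ : G → ℂ => dfc p (C, ψ)) '' IrrOn (nrm C)).Finite :=
    Set.finite_iUnion fun C => (hIrr _).image _
  refine hfin.subset ?_
  intro d hd
  have h2 : ∃ c : Quot (chainRel (G := G) p), kC X p M χ d U c.out.1 ≠ 0 := by
    by_contra h
    push Not at h
    apply hd
    show altSum X p M χ d U = 0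
    unfold altSum
    apply finsum_eq_zero_of_forall_eq_zero
    intro c
    rw [h c]
    simp
  obtain ⟨c, hc⟩ := h2
  have h3 : Nonempty {ψ : G → ℂ // ψ ∈ IrrOn (nrm c.out.1) ∧ Defect p (nrm c.out.1) ψ d ∧
      Induces M ψ χ ∧ (X.stab c.out.1 ψ).map X.proj = U} := by
    by_contra hne
    rw [not_nonempty_iff] at hne
    exact hc Nat.card_of_isEmpty
  obtain ⟨ψ, h4, ⟨n, hn, hdn⟩, -⟩ := h3
  rw [Set.mem_iUnion]
  refine ⟨c.out.1, ψ, h4, ?_⟩
  show dfc p (c.out.1, ψ) = d
  unfold dfc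
  rw [hdn]
  simp [hn]

end Pool.Agent.helper91.DC
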