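import Pool.Agent.helper58.DC.Spec2

/-! NB (project dq:): some binomial coefficient of a nonzero integer is not divisible by `q`. -/

set_option autoImplicit false

namespace Pool.Agent.helper91.DC

open Pool.Agent.helper58.DC

open Polynomial in
theorem NB_choose (q : ℕ) (hq : q.Prime) (k b : ℕ) (hb : b < q ^ k) :
    ¬ q ∣ (b + q ^ k).choose (q ^ k) := by
  have : Fact q.Prime := ⟨hq⟩
  intro hdvd
  have h1 : ((((b + q ^ k).choose (q ^ k) : ℕ)) : ZMod q) = 0 :=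
    (ZMod.natCast_eq_zero_iff _ _).mpr hdvd
  rw [← coeff_one_add_X_pow, pow_add, add_pow_char_pow, one_pow, mul_add, mul_one, coeff_add,
    coeff_one_add_X_pow, Nat.choose_eq_zero_of_lt hb] at h1
  have h2 : ((1 + X : (ZMod q)[X]) ^ b * X ^ q ^ k).coeff (q ^ k) = 1 := by
    have := coeff_mul_X_pow ((1 + X : (ZMod q)[X]) ^ b) (q ^ k) 0
    rw [zero_add] at this
    rw [this, coeff_one_add_X_pow]
    simp
  rw [h2] at h1
  simp at h1

theorem NB : NB_stmt := by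
  intro q hq v hv
  rcases lt_or_gt_of_ne hv with h | h
  · obtain ⟨m, hm⟩ : ∃ m : ℕ, v = -((m + 1 : ℕ) : ℤ) := ⟨(-v - 1).toNat, by omega⟩
    obtain ⟨k, hk⟩ : ∃ k : ℕ, m < q ^ k := ⟨m, Nat.lt_pow_self hq.one_lt⟩
    refine ⟨q ^ k, Nat.one_le_pow _ _ hq.pos, ?_⟩
    rw [hm, Ring.choose_neg]
    intro hdvd
    have h1 : (((m + 1 : ℕ) : ℤ) + ((q ^ k : ℕ) : ℤ) - 1) = ((m + q ^ k : ℕ) : ℤ) := by
      push_cast
      ring
    rw [h1, Ring.choose_natCast] at hdvd
    have h2 : (q : ℤ) ∣ (((m + q ^ k).choose (q ^ k) : ℕ) : ℤ) := by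
      rcases Int.units_eq_one_or (Int.negOnePow (q ^ k : ℕ)) with h3 | h3
      · rw [h3, one_smul] at hdvd
        exact_mod_cast hdvd
      · rw [h3] at hdvd
        have h4 := (dvd_neg (a := (q : ℤ))).mpr hdvd
        simpa using h4
    exact NB_choose q hq k m hk (Int.natCast_dvd_natCast.mp h2)
  · obtain ⟨n, hn⟩ : ∃ n : ℕ, v = (n : ℤ) := ⟨v.toNat, by omega⟩
    refine ⟨n, by omega, ?_⟩
    rw [hn, Ring.choose_natCast, Nat.choose_self]
    intro hdvd
    have := Int.natCast_dvd_natCast.mp (by simpa using hdvd : (q : ℤ) ∣ ((1 : ℕ) : ℤ))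
    exact hq.one_lt.ne' (Nat.dvd_one.mp this)

end Pool.Agent.helper91.DC
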